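import Pool.Agent.Lib_MP_752436_nb.RibbonIff
import Pool.Agent.Lib_MP_752436_nb.LevelPush

/-!
PIECE EXTV: from a normal field to a time dependent vector field on R^3.

On D: nu x is not 0 (as 0 < |nu| + nu_3), let h(x) = (nu_0, nu_1, nu_2) / (|nu| + nu_3) in R^3.
If df(u) = dt(u) h(x), then dF(u) = c (nu + |nu| e_3) with c = dt(u) / (|nu| + nu_3), so
0 = <nu, dF(u)> = c |nu| (|nu| + nu_3), so c = 0, dt(u) = 0, df(u) = 0, u = 0 (immersion).
h is smooth on the open set {0 < |nu| + nu_3}; multiply it by a smooth cut off which is 1 on D and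
supported there (exists_smooth_cutoff), call it h too. Extension: exists_ext (rb/Ext.lean) for
P = closedBall 0 1, the map x -> (t x, f x) into R x R^3 (injective on D, immersion: local left
inverses by exists_left_inverse), W = univ: V(q) = sum_i rho_i(q) h(pi_i(q)).
-/

open Metric Set Filter
open scoped ContDiff Topology

namespace Pool.Agent.Lib_MP_752436_hi

open Pool.Agent.Lib_MP_752436_gt Pool.Agent.Lib_MP_752436_tp Pool.Agent.Lib_MP_752436_rb
  Pool.Agent.Lib_MP_752436_nb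

private theorem extv_coord {n m : ℕ}
    {F : EuclideanSpace ℝ (Fin n) → EuclideanSpace ℝ (Fin m)}
    {x : EuclideanSpace ℝ (Fin n)} (hF : DifferentiableAt ℝ F x) (i : Fin m)
    (u : EuclideanSpace ℝ (Fin n)) :
    fderiv ℝ (fun y => F y i) x u = fderiv ℝ F x u i := by
  have h1 : HasFDerivAt (fun y => F y i)
      ((EuclideanSpace.proj i : EuclideanSpace ℝ (Fin m) →L[ℝ] ℝ).comp (fderiv ℝ F x)) x :=
    (EuclideanSpace.proj i : EuclideanSpace ℝ (Fin m) →L[ℝ] ℝ).hasFDerivAt.comp x hF.hasFDerivAt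
  rw [h1.fderiv]
  rfl

/-- a smooth cut off times a function which is smooth near its support -/
private theorem extv_cut {E F : Type*} [NormedAddCommGroup E] [NormedSpace ℝ E]
    [NormedAddCommGroup F] [NormedSpace ℝ F] {β : E → ℝ} {g : E → F} (hβ : ContDiff ℝ ∞ β)
    (hg : ∀ x ∈ tsupport β, ContDiffAt ℝ ∞ g x) : ContDiff ℝ ∞ (fun x => β x • g x) := by
  refine contDiff_iff_contDiffAt.2 (fun x => ?_)
  by_cases hx : x ∈ tsupport β
  · exact hβ.contDiffAt.smul (hg x hx)
  · have h0 : (fun z => β z • g z) =ᶠ[𝓝 x] fun _ => (0 : F) := by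
      filter_upwards [notMem_tsupport_iff_eventuallyEq.1 hx] with w hw
      have hw' : β w = 0 := hw
      rw [hw', zero_smul]
    exact contDiffAt_const.congr_of_eventuallyEq h0

/-- extension of a smooth map of the plane to a time dependent vector field -/
private theorem extv_extend {f : Plane → Space} {t : Plane → ℝ} (hS : SDisc f t)
    {g : Plane → Space} (hg : ContDiff ℝ ∞ g) :
    ∃ V : ℝ × Space → Space, ContDiff ℝ ∞ V ∧ HasCompactSupport V ∧
      ∀ x ∈ closedBall (0 : Plane) 1, V (t x, f x) = g x := by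
  have hq : ContDiff ℝ ∞ (fun x : Plane => (t x, f x)) := hS.smt.prodMk hS.smf
  have hqd : ∀ x, fderiv ℝ (fun x : Plane => (t x, f x)) x =
      (fderiv ℝ t x).prod (fderiv ℝ f x) := by
    intro x
    exact (((hS.smt.differentiable (by simp)) x).hasFDerivAt.prodMk
      ((hS.smf.differentiable (by simp)) x).hasFDerivAt).fderiv
  obtain ⟨n, ρ, π, hρ, hπ, hρc, -, hsum, hinv⟩ :=
    exists_ext (P := closedBall (0 : Plane) 1) (isCompact_closedBall 0 1)
      (h := fun x : Plane => (t x, f x)) hq.continuous.continuousOn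
      (by
        intro x hx y hy hxy
        simp only [Prod.mk.injEq] at hxy
        exact hS.inj x hx y hy hxy.2 hxy.1)
      (by
        intro x hx
        have hinj : Function.Injective (fderiv ℝ (fun x : Plane => (t x, f x)) x) := by
          rw [hqd x]
          refine (injective_iff_map_eq_zero _).2 fun u hu => ?_
          have h1 : ((fderiv ℝ t x u, fderiv ℝ f x u) : ℝ × Space) = 0 := hu
          have h2 := Prod.mk.inj h1
          exact hS.imm x hx u h2.2 h2.1
        obtain ⟨π, hπ, he⟩ := exists_left_inverse hq hinj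
        exact ⟨π, hπ, he.filter_mono nhdsWithin_le_nhds⟩)
      (W := univ) isOpen_univ (fun x _ => mem_univ _)
  refine ⟨fun q => ∑ i, ρ i q • g (π i q), ?_, ?_, ?_⟩
  · exact ContDiff.sum fun i _ => (hρ i).smul (hg.comp (hπ i))
  · refine HasCompactSupport.intro
      (isCompact_iUnion fun i => (hρc i).isCompact : IsCompact (⋃ i, tsupport (ρ i)))
      fun q hq' => ?_
    refine Finset.sum_eq_zero fun i _ => ?_
    have : ρ i q = 0 := by
      by_contra h
      exact hq' (mem_iUnion.2 ⟨i, subset_tsupport _ h⟩)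
    rw [this, zero_smul]
  · intro x hx
    have h1 : ∀ i, ρ i (t x, f x) • g (π i (t x, f x)) = ρ i (t x, f x) • g x := by
      intro i
      by_cases h0 : ρ i (t x, f x) = 0
      · rw [h0, zero_smul, zero_smul]
      · have h2 : π i (t x, f x) = x := hinv i x hx (subset_tsupport _ h0)
        rw [h2]
    show ∑ i, ρ i (t x, f x) • g (π i (t x, f x)) = g x
    rw [Finset.sum_congr rfl fun i _ => h1 i, ← Finset.sum_smul]
    have h3 : ∑ i, ρ i (t x, f x) = 1 := hsum x hx
    rw [h3, one_smul]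

theorem exists_field {F : Plane → EuclideanSpace ℝ (Fin 4)} (hF : IsSliceDisc F)
    {ν : Plane → EuclideanSpace ℝ (Fin 4)} (hν : ContDiff ℝ ∞ ν)
    (h : ∀ x ∈ closedBall (0 : Plane) 1, (∀ u, (inner ℝ (ν x) (fderiv ℝ F x u) : ℝ) = 0) ∧
        0 < ‖ν x‖ + ν x 3) :
    ∃ V : ℝ × Space → Space, ContDiff ℝ ∞ V ∧ HasCompactSupport V ∧
      ∀ x ∈ closedBall (0 : Plane) 1, ∀ u, fderiv ℝ (shadow F) x u =
        (fderiv ℝ (height F) x u) • V (height F x, shadow F x) → u = 0 := by
  have hS := sdisc_of_sliceDisc hF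
  have hs : Continuous (fun x => ‖ν x‖ + ν x 3) :=
    hν.continuous.norm.add ((contDiff_euclidean.1 hν) 3).continuous
  have hG : IsOpen {x : Plane | 0 < ‖ν x‖ + ν x 3} := isOpen_lt continuous_const hs
  have hne : ∀ x : Plane, 0 < ‖ν x‖ + ν x 3 → ν x ≠ 0 := by
    intro x hx h0
    rw [h0] at hx
    simp at hx
  obtain ⟨β, hβ, -, hβs, -, hβ1⟩ := exists_smooth_cutoff (isCompact_closedBall (0 : Plane) 1) hG
    (fun x hx => (h x hx).2)
  set g0 : Plane → Space := fun x => (‖ν x‖ + ν x 3)⁻¹ • !₂[ν x 0, ν x 1, ν x 2] with hg0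
  have hproj : ContDiff ℝ ∞ (fun x => (!₂[ν x 0, ν x 1, ν x 2] : Space)) := by
    have h := contDiff_euclidean.1 hν
    rw [contDiff_euclidean]
    intro i
    fin_cases i
    · exact h 0
    · exact h 1
    · exact h 2
  have hg0s : ∀ x ∈ tsupport β, ContDiffAt ℝ ∞ g0 x := by
    intro x hx
    have hx1 : 0 < ‖ν x‖ + ν x 3 := hβs hx
    have h1 : ContDiffAt ℝ ∞ (fun x => ‖ν x‖ + ν x 3) x :=
      (hν.contDiffAt.norm ℝ (hne x hx1)).add ((contDiff_euclidean.1 hν) 3).contDiffAt
    exact (h1.inv hx1.ne').smul hproj.contDiffAt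
  obtain ⟨V, hV, hVc, hVx⟩ := extv_extend hS (extv_cut hβ hg0s)
  refine ⟨V, hV, hVc, fun x hx u hu => ?_⟩
  have hV1 : V (height F x, shadow F x) = g0 x := by
    rw [hVx x hx, hβ1 x hx, one_smul]
  rw [hV1] at hu
  obtain ⟨hin, hpos⟩ := h x hx
  have hd : DifferentiableAt ℝ F x := (hF.smooth.differentiable (by simp)) x
  have hds : DifferentiableAt ℝ (shadow F) x := (hS.smf.differentiable (by simp)) x
  set s : ℝ := ‖ν x‖ + ν x 3 with hsdef
  set a : ℝ := fderiv ℝ (height F) x u with ha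
  have c : ∀ i : Fin 3, fderiv ℝ (fun y => shadow F y i) x u = a * (s⁻¹ *
      (!₂[ν x 0, ν x 1, ν x 2] : Space) i) := by
    intro i
    rw [extv_coord hds i u, hu]
    rfl
  have c0 : fderiv ℝ F x u 0 = a * (s⁻¹ * ν x 0) := by
    rw [← extv_coord hd 0 u]; exact c 0
  have c1 : fderiv ℝ F x u 1 = a * (s⁻¹ * ν x 1) := by
    rw [← extv_coord hd 1 u]; exact c 1
  have c2 : fderiv ℝ F x u 2 = a * (s⁻¹ * ν x 2) := by
    rw [← extv_coord hd 2 u]; exact c 2
  have c3 : fderiv ℝ F x u 3 = a := by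
    rw [← extv_coord hd 3 u]; rfl
  have hnorm : ‖ν x‖ ^ 2 = ν x 0 ^ 2 + ν x 1 ^ 2 + ν x 2 ^ 2 + ν x 3 ^ 2 := by
    rw [EuclideanSpace.norm_sq_eq, Fin.sum_univ_four]
    simp only [Real.norm_eq_abs, sq_abs]
  have hin1 := hin u
  rw [PiLp.inner_apply, Fin.sum_univ_four] at hin1
  simp only [RCLike.inner_apply, conj_trivial] at hin1
  rw [c0, c1, c2, c3] at hin1
  have hnpos : 0 < ‖ν x‖ := norm_pos_iff.2 (hne x hpos)
  have hkey : a * ‖ν x‖ = 0 := by
    have h1 : a * s⁻¹ * (ν x 0 ^ 2 + ν x 1 ^ 2 + ν x 2 ^ 2 + s * ν x 3) = 0 := by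
      have h2 : a * s⁻¹ * (s * ν x 3) = a * ν x 3 := by
        field_simp
      linear_combination hin1 + h2
    have h3 : ν x 0 ^ 2 + ν x 1 ^ 2 + ν x 2 ^ 2 + s * ν x 3 = s * ‖ν x‖ := by
      rw [hsdef]
      linear_combination -hnorm
    rw [h3] at h1
    have h4 : a * s⁻¹ * (s * ‖ν x‖) = a * ‖ν x‖ := by
      field_simp
    rw [← h4, h1]
  have ha0 : a = 0 := by
    rcases mul_eq_zero.1 hkey with h1 | h1
    · exact h1
    · exact absurd h1 hnpos.ne'
  refine hS.imm x hx u ?_ ha0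
  rw [hu, ha0, zero_smul]

end Pool.Agent.Lib_MP_752436_hi
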