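import Pool.Agent.Lib_MP_752436_hi.Flow
import Pool.Agent.Lib_MP_752436_nb.RibbonIff
import Pool.Agent.Lib_MP_752436_nb.LevelPush

/-!
PIECE ISO: straightening by the flow.

W(s, y) = (beta(s, y), V(s, y)) on R x R^3, beta a smooth compactly supported cut off with values in
[0, 1], beta = 1 on [-1, T + 1] x closedBall 0 R, where t <= T and |f| + (T + 1) sup|V| < R on D.
Phi its flow (exists_isFlow in tp/Flow, contDiff_flow in hi/Flow). For x in D and 0 <= s <= t x the
first component of Phi_(-s) (t x, f x) is t x - s (as long as beta = 1, which persists). So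
Phi_(-(t x)) (t x, f x) = (0, g x), g smooth on the plane (define g as the second component, for all x),
g = f on the circle. (t x, f x) = Phi_(t x) (0, g x) on D, so (g, t) is injective on D. Immersion: let
dg(u) = 0 at x in D. Phi^(t x)(Phi^(-(t x))(q x)) = q x, q x = (t x, f x); the first component a(x) of
Phi_(-(t x))(q x) is 0 on D; for the derivative at x in D (also on the circle) note that it is 0 on a
neighbourhood of x in D union {the identity above holds near D}: the orbit argument works for all x near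
D, t x > -1, for both signs of t x. Differentiate q = Phi(t, (0, g)): dq(u) = D Phi(dt(u), 0) =
dt(u) W(q x) = dt(u) (1, V(q x)). So df(u) = dt(u) V(t x, f x), u = 0.
-/

open Metric Set Filter
open scoped ContDiff Topology

namespace Pool.Agent.Lib_MP_752436_hi

open Pool.Agent.Lib_MP_752436_gt Pool.Agent.Lib_MP_752436_tp Pool.Agent.Lib_MP_752436_rb
  Pool.Agent.Lib_MP_752436_nb

theorem exists_straight {f : Plane → Space} {t : Plane → ℝ} (h : SDisc f t)
    {V : ℝ × Space → Space} (hV : ContDiff ℝ ∞ V) (hc : HasCompactSupport V)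
    (hVi : ∀ x ∈ closedBall (0 : Plane) 1, ∀ u,
      fderiv ℝ f x u = (fderiv ℝ t x u) • V (t x, f x) → u = 0) :
    ∃ g : Plane → Space, SDisc g t ∧ (∀ x ∈ sphere (0 : Plane) 1, g x = f x) ∧
      ∀ x ∈ closedBall (0 : Plane) 1, Function.Injective (fderiv ℝ g x) := by
  -- bounds
  obtain ⟨C, hC⟩ : ∃ C : ℝ, ∀ p, ‖V p‖ ≤ C := by
    obtain ⟨C, hC⟩ := hV.continuous.bounded_above_of_compact_support hc
    exact ⟨C, hC⟩
  have hcont : Continuous fun x : Plane => (t x, f x) := h.smt.continuous.prodMk h.smf.continuous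
  obtain ⟨R₀, hR₀⟩ := (isCompact_closedBall (0 : Plane) 1).exists_bound_of_continuousOn
    hcont.continuousOn
  obtain ⟨T, hT⟩ : ∃ T : ℝ, T = max R₀ 0 + 1 := ⟨_, rfl⟩
  have hT0 : 0 < T := by rw [hT]; positivity
  have hRT : ∀ x ∈ closedBall (0 : Plane) 1, ‖(t x, f x)‖ < T := by
    intro x hx
    have h1 := hR₀ x hx
    have h2 := le_max_left R₀ 0
    linarith
  obtain ⟨D, hD⟩ : ∃ D : ℝ, D = max C 1 := ⟨_, rfl⟩
  have hD1 : 1 ≤ D := by rw [hD]; exact le_max_right _ _
  have hDC : ∀ p, ‖V p‖ ≤ D := fun p => (hC p).trans (by rw [hD]; exact le_max_left _ _)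
  -- the field
  obtain ⟨R, hR⟩ : ∃ R : ℝ, R = T + D * T + 1 := ⟨_, rfl⟩
  have hR0 : 0 < R := by rw [hR]; positivity
  let χ : ContDiffBump (0 : ℝ × Space) := ⟨R, R + 1, hR0, by linarith⟩
  obtain ⟨W, hWdef⟩ : ∃ W : ℝ × Space → ℝ × Space, W = fun p => (χ p, V p) := ⟨_, rfl⟩
  have hW : ContDiff ℝ ∞ W := by
    rw [hWdef]
    exact χ.contDiff.prodMk hV
  have hWc : HasCompactSupport W := by
    rw [hWdef]
    refine HasCompactSupport.intro' (χ.hasCompactSupport.union hc)
      ((isClosed_tsupport _).union (isClosed_tsupport _)) fun p hp => ?_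
    rw [mem_union, not_or] at hp
    rw [Prod.mk_eq_zero]
    exact ⟨image_eq_zero_of_notMem_tsupport hp.1, image_eq_zero_of_notMem_tsupport hp.2⟩
  have hWD : ∀ p, ‖W p‖ ≤ D := by
    intro p
    rw [hWdef, Prod.norm_def]
    refine max_le ?_ (hDC p)
    show ‖χ p‖ ≤ D
    rw [Real.norm_of_nonneg χ.nonneg]
    exact χ.le_one.trans hD1
  have hW1 : ∀ p, ‖p‖ ≤ R → W p = (1, V p) := by
    intro p hp
    rw [hWdef]
    have h1 : χ p = 1 := χ.one_of_mem_closedBall (by simpa using hp)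
    show (χ p, V p) = (1, V p)
    rw [h1]
  obtain ⟨Φ, hΦ⟩ := exists_isFlow (hW.of_le (by exact_mod_cast le_top)) hWc
  have hΦs := contDiff_flow hW hWc hΦ
  have hΦ0 := hΦ.zero
  have hΦadd := hΦ.add
  have hΦd : ∀ t x, HasDerivAt (fun s => Φ s x) (W (Φ t x)) t := fun t x => hΦ.deriv x t
  -- speed bound
  have hspeed : ∀ (p : ℝ × Space) (s : ℝ), ‖Φ s p - p‖ ≤ D * |s| := by
    intro p s
    have h1 := (convex_univ (𝕜 := ℝ) (E := ℝ)).norm_image_sub_le_of_norm_hasDerivWithin_le
      (f := fun s => Φ s p) (f' := fun s => W (Φ s p)) (C := D)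
      (fun s _ => (hΦd s p).hasDerivWithinAt) (fun s _ => hWD _) (mem_univ (0 : ℝ)) (mem_univ s)
    simp only [hΦ0] at h1
    rw [sub_zero, Real.norm_eq_abs] at h1
    exact h1
  -- the time coordinate
  have htime : ∀ (p : ℝ × Space), ‖p‖ < T → ∀ s : ℝ, |s| < T → (Φ s p).1 = p.1 + s := by
    intro p hp s hs
    have h1 : ∀ r ∈ Icc (-T) T, HasDerivWithinAt (fun r => (Φ r p).1 - r) 0 (Icc (-T) T) r := by
      intro r hr
      have h2 : ‖Φ r p‖ ≤ R := by
        have h3 := hspeed p r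
        have h4 : |r| ≤ T := abs_le.2 hr
        have h5 : ‖Φ r p‖ ≤ ‖Φ r p - p‖ + ‖p‖ := by
          have := norm_add_le (Φ r p - p) p
          simpa using this
        have h6 : D * |r| ≤ D * T := mul_le_mul_of_nonneg_left h4 (by linarith)
        rw [hR]
        linarith
      have h3 := (hΦd r p)
      rw [hW1 _ h2] at h3
      have h4 : HasDerivAt (fun r => (Φ r p).1) 1 r := by
        have h5 := (ContinuousLinearMap.fst ℝ ℝ Space).hasFDerivAt.comp_hasDerivAt r h3
        exact h5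
      have h6 : HasDerivAt (fun r => (Φ r p).1 - r) (1 - 1) r := h4.sub (hasDerivAt_id r)
      rw [sub_self] at h6
      exact h6.hasDerivWithinAt
    have hmem : s ∈ Icc (-T) T := ⟨(neg_lt_of_abs_lt hs).le, (lt_of_abs_lt hs).le⟩
    have hmem0 : (0 : ℝ) ∈ Icc (-T) T := ⟨by linarith, hT0.le⟩
    have h2 := (convex_Icc (-T) T).norm_image_sub_le_of_norm_hasDerivWithin_le
      (C := 0) h1 (fun r _ => by simp) hmem0 hmem
    rw [zero_mul, norm_le_zero_iff] at h2
    simp only [hΦ0] at h2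
    linarith
  -- the new map
  obtain ⟨g, hg⟩ : ∃ g : Plane → Space, g = fun x => (Φ (-t x) (t x, f x)).2 := ⟨_, rfl⟩
  have hgs : ContDiff ℝ ∞ g := by
    rw [hg]
    have h1 : ContDiff ℝ ∞ fun x : Plane => (-t x, (t x, f x)) :=
      h.smt.neg.prodMk (h.smt.prodMk h.smf)
    exact (hΦs.comp h1).snd
  have hkey : ∀ x, ‖(t x, f x)‖ < T → Φ (t x) (0, g x) = (t x, f x) := by
    intro x hx
    have h1 : |(-t x)| < T := by
      rw [abs_neg]
      exact (norm_fst_le (t x, f x)).trans_lt hx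
    have h2 := htime (t x, f x) hx (-t x) h1
    have h3 : Φ (-t x) (t x, f x) = (0, g x) := by
      rw [hg]
      ext1
      · rw [h2]; simp
      · rfl
    rw [← h3, ← hΦadd, add_neg_cancel, hΦ0]
  have hopen : IsOpen {x : Plane | ‖(t x, f x)‖ < T} := isOpen_lt hcont.norm continuous_const
  have hTR : T ≤ R := by
    rw [hR]
    nlinarith
  have hder : ∀ x ∈ closedBall (0 : Plane) 1, ∀ u, fderiv ℝ g x u = 0 → u = 0 := by
    intro x hx u hu
    refine hVi x hx u ?_
    have hgd : HasFDerivAt g (fderiv ℝ g x) x := ((hgs.differentiable (by simp)) x).hasFDerivAt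
    have htd : HasFDerivAt t (fderiv ℝ t x) x := ((h.smt.differentiable (by simp)) x).hasFDerivAt
    have hfd : HasFDerivAt f (fderiv ℝ f x) x := ((h.smf.differentiable (by simp)) x).hasFDerivAt
    have hP : HasFDerivAt (fun p : ℝ × (ℝ × Space) => Φ p.1 p.2)
        (fderiv ℝ (fun p : ℝ × (ℝ × Space) => Φ p.1 p.2) (t x, (0, g x))) (t x, (0, g x)) :=
      ((hΦs.differentiable (by simp)) _).hasFDerivAt
    have hcd : HasFDerivAt (fun y => (t y, ((0 : ℝ), g y)))
        ((fderiv ℝ t x).prod ((0 : Plane →L[ℝ] ℝ).prod (fderiv ℝ g x))) x :=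
      htd.prodMk ((hasFDerivAt_const (0 : ℝ) x).prodMk hgd)
    have h1 : HasFDerivAt (fun y => Φ (t y) (0, g y))
        ((fderiv ℝ (fun p : ℝ × (ℝ × Space) => Φ p.1 p.2) (t x, (0, g x))).comp
          ((fderiv ℝ t x).prod ((0 : Plane →L[ℝ] ℝ).prod (fderiv ℝ g x)))) x :=
      HasFDerivAt.comp (g := fun p : ℝ × (ℝ × Space) => Φ p.1 p.2) x hP hcd
    have h2 : (fun y => Φ (t y) (0, g y)) =ᶠ[𝓝 x] fun y => (t y, f y) := by
      filter_upwards [hopen.mem_nhds (hRT x hx)] with y hy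
      exact hkey y hy
    have h3 := (h1.congr_of_eventuallyEq h2.symm).unique (htd.prodMk hfd)
    have h4 := congrArg (fun L : Plane →L[ℝ] ℝ × Space => L u) h3
    simp only [ContinuousLinearMap.comp_apply, ContinuousLinearMap.prod_apply,
      ContinuousLinearMap.zero_apply, hu] at h4
    have h5 : HasDerivAt (fun s => Φ s (0, g x))
        (fderiv ℝ (fun p : ℝ × (ℝ × Space) => Φ p.1 p.2) (t x, (0, g x)) (1, 0)) (t x) := by
      have h6 : HasDerivAt (fun s : ℝ => (s, ((0 : ℝ), g x))) ((1 : ℝ), (0 : ℝ × Space)) (t x) :=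
        (hasDerivAt_id (t x)).prodMk (hasDerivAt_const _ _)
      exact HasFDerivAt.comp_hasDerivAt (l := fun p : ℝ × (ℝ × Space) => Φ p.1 p.2) (t x) hP h6
    have h6 := h5.unique (hΦd (t x) (0, g x))
    rw [hkey x (hRT x hx), hW1 _ ((hRT x hx).le.trans hTR)] at h6
    have h7 : ((fderiv ℝ t x u, ((0 : ℝ), (0 : Space))) : ℝ × (ℝ × Space)) =
        fderiv ℝ t x u • ((1 : ℝ), (0 : ℝ × Space)) := by
      simp
    rw [h7, map_smul, h6] at h4
    have h8 := congrArg Prod.snd h4
    exact h8.symm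
  refine ⟨g, ⟨hgs, h.smt, ?_, ?_, h.bd, h.pos⟩, ?_, ?_⟩
  · intro x hx y hy hxy htxy
    have h1 := hkey x (hRT x hx)
    have h2 := hkey y (hRT y hy)
    rw [hxy, htxy, h2, Prod.mk.injEq] at h1
    exact h.inj x hx y hy h1.2.symm htxy
  · intro x hx u hu _
    exact hder x hx u hu
  · intro x hx
    rw [hg]
    show (Φ (-t x) (t x, f x)).2 = f x
    rw [h.bd x hx, neg_zero, hΦ0]
  · intro x hx
    rw [injective_iff_map_eq_zero]
    exact hder x hx

end Pool.Agent.Lib_MP_752436_hi
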