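import Pool.Agent.Lib_MP_752436_hi.Norm
import Pool.Agent.Lib_MP_752436_hi.Field
import Pool.Agent.Lib_MP_752436_hi.Iso
import Pool.Agent.Lib_MP_752436_gt.WBirths
import Pool.Agent.Lib_MP_752436_mv.Crit

/-!
Every slice disc can be replaced by one with the same boundary knot and immersed shadow.
-/

open Metric Set Filter
open scoped ContDiff Topology

namespace Pool.Agent.Lib_MP_752436_hi

open Pool.Agent.Lib_MP_752436_gt Pool.Agent.Lib_MP_752436_tp Pool.Agent.Lib_MP_752436_rb
  Pool.Agent.Lib_MP_752436_nb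

theorem finite_crit_of_morse {G : Plane → EuclideanSpace ℝ (Fin 4)} (hG : MorseDisc G) :
    {x | x ∈ closedBall (0 : Plane) 1 ∧ fderiv ℝ (height G) x = 0}.Finite :=
  Pool.Agent.Lib_MP_752436_mv.finite_critical hG

/-- Every slice disc has a slice disc with the same boundary knot and immersed shadow. -/
theorem exists_immersed_shadow {F : Plane → EuclideanSpace ℝ (Fin 4)} (hF : IsSliceDisc F) :
    ∃ G, IsSliceDisc G ∧ boundaryKnot G = boundaryKnot F ∧
      ∀ x ∈ closedBall (0 : Plane) 1, Function.Injective (fderiv ℝ (shadow G) x) := by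
  obtain ⟨G, hG, -, -, hGi, -⟩ := willmore_births hF
  obtain ⟨ν, hν, hν1⟩ := exists_normal hG.slice (finite_crit_of_morse hG)
  obtain ⟨V, hV, hVc, hVi⟩ := exists_field hG.slice hν hν1
  obtain ⟨g, hg, hgb, hgi⟩ := exists_straight (sdisc_of_sliceDisc hG.slice) hV hVc hVi
  refine ⟨lift4 g (height G), isSliceDisc_of_sdisc hg, ?_, ?_⟩
  · unfold boundaryKnot
    rw [shadow_lift4]
    refine image_congr fun x hx => ?_
    rw [hgb x hx]
    ext i
    fin_cases i
    · exact hGi x 0 (by decide)
    · exact hGi x 1 (by decide)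
    · exact hGi x 2 (by decide)
  · rw [shadow_lift4]
    exact hgi

end Pool.Agent.Lib_MP_752436_hi
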