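import Pool.Agent.Lib_MP_752436_hi.Main
import Pool.Agent.Lib_MP_752436_hg.Sharp
import Pool.Agent.Lib_MP_752436_hg.Forward
import Pool.Agent.Lib_MP_752436_hg.Backward

/-!
Slice knots are the knots which bound slice discs of hyperbolic mean curvature less than `1 + ε`, for
every `ε > 0`; ribbon knots are those which bound one of hyperbolic mean curvature less than `1`.
-/

open Metric Set Filter
open scoped ContDiff Topology

namespace Pool.Agent.Lib_MP_752436_hi

open Pool.Agent.Lib_MP_752436_gt Pool.Agent.Lib_MP_752436_tp Pool.Agent.Lib_MP_752436_rb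
  Pool.Agent.Lib_MP_752436_nb Pool.Agent.Lib_MP_752436_hg

/-- Every slice disc can be replaced by one with the same boundary knot and hyperbolic mean curvature
less than `1 + ε`. -/
theorem exists_hyp_lt {F : Plane → EuclideanSpace ℝ (Fin 4)} (hF : IsSliceDisc F) {ε : ℝ}
    (hε : 0 < ε) : ∃ G, IsSliceDisc G ∧ boundaryKnot G = boundaryKnot F ∧
      ∀ x ∈ closedBall (0 : Plane) 1, hypCurvature G x < 1 + ε := by
  obtain ⟨G, hG, hGF, hGi⟩ := exists_immersed_shadow hF
  obtain ⟨H, hH, hHG, hHh⟩ := exists_disc_of_immersed hG hGi hε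
  refine ⟨H, hH, ?_, hHh⟩
  rw [← hGF]
  unfold boundaryKnot
  rw [hHG]

theorem slice_iff_hyp (K : Set Space) : (∃ F, IsSliceDisc F ∧ boundaryKnot F = K) ↔
    ∀ ε > 0, ∃ F, IsSliceDisc F ∧ boundaryKnot F = K ∧
      ∀ x ∈ closedBall (0 : Plane) 1, hypCurvature F x < 1 + ε := by
  constructor
  · rintro ⟨F, hF, rfl⟩ ε hε
    exact exists_hyp_lt hF hε
  · intro h
    obtain ⟨F, hF, hK, -⟩ := h 1 one_pos
    exact ⟨F, hF, hK⟩

theorem ribbon_iff_hyp (K : Set Space) : IsRibbonKnot K ↔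
    ∃ F, IsSliceDisc F ∧ boundaryKnot F = K ∧
      ∀ x ∈ closedBall (0 : Plane) 1, hypCurvature F x < 1 := by
  constructor
  · exact exists_disc_of_ribbon
  · rintro ⟨F, hF, rfl, h⟩
    exact isRibbonKnot_of_hyp hF h

end Pool.Agent.Lib_MP_752436_hi
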