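import Pool.Agent.Lib_MP_752436_tp.Flow

/-!
PIECE FLOW2: joint smoothness of a flow from the smoothness of time one maps.
-/

open Metric Set Filter
open scoped ContDiff Topology NNReal

namespace Pool.Agent.Lib_MP_752436_hi

open Pool.Agent.Lib_MP_752436_tp

theorem contDiff_flow_of_one {E : Type} [NormedAddCommGroup E] [NormedSpace ℝ E]
    [FiniteDimensional ℝ E] {v : E → E} (hv : ContDiff ℝ ∞ v) (hc : HasCompactSupport v)
    {Φ : ℝ → E → E} (hΦ : IsFlow v Φ)
    (hone : ∀ W : E × ℝ → E × ℝ, ContDiff ℝ ∞ W → HasCompactSupport W →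
      ∀ Ψ : ℝ → E × ℝ → E × ℝ, IsFlow W Ψ → ContDiff ℝ ∞ (Ψ 1)) :
    ContDiff ℝ ∞ (fun p : ℝ × E => Φ p.1 p.2) := by
  refine contDiff_iff_contDiffAt.2 fun p₀ => ?_
  have hr : 0 < |p₀.1| + 1 := by positivity
  let β : ContDiffBump (0 : ℝ) := ⟨|p₀.1| + 1, |p₀.1| + 2, hr, by linarith⟩
  have hβ1 : ∀ τ : ℝ, |τ| ≤ |p₀.1| + 1 → β τ = 1 := by
    intro τ hτ
    exact β.one_of_mem_closedBall (by simpa [Real.dist_eq] using hτ)
  let c : ℝ → ℝ := fun τ => β τ * τ
  have hcs : ContDiff ℝ ∞ c := β.contDiff.mul contDiff_id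
  let W : E × ℝ → E × ℝ := fun q => (c q.2 • v q.1, 0)
  have hW : ContDiff ℝ ∞ W :=
    ((hcs.comp contDiff_snd).smul (hv.comp contDiff_fst)).prodMk contDiff_const
  have hWc : HasCompactSupport W := by
    refine HasCompactSupport.of_support_subset_isCompact
      (K := tsupport v ×ˢ tsupport β) (hc.isCompact.prod β.hasCompactSupport.isCompact) ?_
    intro q hq
    refine mem_prod.2 ⟨?_, ?_⟩
    · refine subset_tsupport _ fun h0 => hq ?_
      show (c q.2 • v q.1, (0 : ℝ)) = 0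
      rw [h0, smul_zero]
      rfl
    · refine subset_tsupport _ fun h0 => hq ?_
      show ((β q.2 * q.2) • v q.1, (0 : ℝ)) = 0
      rw [h0, zero_mul, zero_smul]
      rfl
  let Ψ : ℝ → E × ℝ → E × ℝ := fun s q => (Φ (s * c q.2) q.1, q.2)
  have hΨ : IsFlow W Ψ := by
    refine ⟨?_, ?_, ?_⟩
    · intro q
      show (Φ (0 * c q.2) q.1, q.2) = q
      rw [zero_mul, hΦ.zero]
    · intro q t
      have h1 : HasDerivAt (fun s : ℝ => s * c q.2) (c q.2) t := by
        simpa using (hasDerivAt_id t).mul_const (c q.2)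
      have h2 : HasDerivAt (fun s => Φ (s * c q.2) q.1)
          (c q.2 • v (Φ (t * c q.2) q.1)) t :=
        HasDerivAt.scomp (h := fun s : ℝ => s * c q.2) (g₁ := fun s => Φ s q.1) t
          (hΦ.deriv q.1 (t * c q.2)) h1
      exact h2.prodMk (hasDerivAt_const t q.2)
    · intro s t q
      show (Φ ((s + t) * c q.2) q.1, q.2) = (Φ (s * c q.2) (Φ (t * c q.2) q.1), q.2)
      rw [add_mul, hΦ.add]
  have h1 := hone W hW hWc Ψ hΨ
  have h2 : ContDiff ℝ ∞ fun p : ℝ × E => (Ψ 1 (p.2, p.1)).1 :=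
    contDiff_fst.comp (h1.comp (contDiff_snd.prodMk contDiff_fst))
  refine h2.contDiffAt.congr_of_eventuallyEq ?_
  have h3 : ∀ᶠ p : ℝ × E in 𝓝 p₀, |p.1| < |p₀.1| + 1 :=
    (continuous_abs.comp continuous_fst).continuousAt.eventually_lt continuousAt_const
      (show |p₀.1| < |p₀.1| + 1 by linarith)
  filter_upwards [h3] with p hp
  show Φ p.1 p.2 = Φ (1 * (β p.1 * p.1)) p.2
  rw [hβ1 p.1 hp.le, one_mul, one_mul]

end Pool.Agent.Lib_MP_752436_hi
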