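import Pool.Agent.Lib_MP_5027f4_mp.Deriv
import Pool.Agent.Lib_MP_752436_tp.Flow
import Pool.Agent.Lib_MP_752436_hi.FlowJoint

/-!
PIECE FLOW: the flow of a smooth compactly supported vector field is jointly smooth.

Time one maps are C^n for all n, all finite dimensional E and all smooth compactly supported fields, by
induction on n: the derivative of the time one map at x in the direction w is the second component of
the time one map of the field (x, w) -> (v x, D v(x) w) on E x E, cut off for large w. Joint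
smoothness: the flow of v at time tau is the time one map of the field (x, tau) -> (tau v(x), 0) on
E x R, cut off for large tau.
-/

open Metric Set Filter
open scoped ContDiff Topology NNReal

namespace Pool.Agent.Lib_MP_752436_hi

open Pool.Agent.Lib_MP_752436_tp Pool.Agent.MP_5027f4_mp

section

variable {E : Type} [NormedAddCommGroup E] [NormedSpace ℝ E] [FiniteDimensional ℝ E]

theorem solves_flow {v : E → E} {Φ : ℝ → E → E} (hΦ : IsFlow v Φ) (x : E) (s : Set ℝ) :
    Solves v univ s (fun t => Φ t x) :=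
  fun t _ => ⟨mem_univ _, (hΦ.deriv x t).hasDerivWithinAt⟩

/-- The derivative of the time one map. -/
theorem exists_derivative {v : E → E} (hv : ContDiff ℝ ∞ v) (hc : HasCompactSupport v)
    {Φ : ℝ → E → E} (hΦ : IsFlow v Φ) (x : E) : ∃ A : ℝ → E →L[ℝ] E,
      A 0 = ContinuousLinearMap.id ℝ E ∧
      (∀ t ∈ Icc (0 : ℝ) 1,
        HasDerivWithinAt A ((fderiv ℝ v (Φ t x)).comp (A t)) (Icc 0 1) t) ∧
      HasFDerivAt (Φ 1) (A 1) x := by
  have hv2 : ContDiff ℝ 2 v := by exact_mod_cast contDiff_infty.1 hv 2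
  obtain ⟨A, hA0, hA⟩ := exists_fundamental hv2 zero_le_one (solves_flow hΦ x (Icc 0 1))
  refine ⟨A, hA0, hA, ?_⟩
  rw [hasFDerivAt_iff_isLittleO, Asymptotics.isLittleO_iff]
  intro ε hε
  obtain ⟨δ, hδ, h⟩ := flow_strict hv2 hc zero_le_one (solves_flow hΦ x (Icc 0 1)) hA0 hA hε
  filter_upwards [ball_mem_nhds x hδ] with y hy
  have h1 := h (fun t => Φ t y) (fun t => Φ t x) (solves_flow hΦ y _) (solves_flow hΦ x _)
    (by simpa only [hΦ.zero, mem_ball] using hy) (by simpa only [hΦ.zero, dist_self] using hδ)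
  simpa only [hΦ.zero] using h1

/-- Time one maps are smooth. -/
theorem contDiff_time_one_nat (n : ℕ) : ∀ {E : Type} [NormedAddCommGroup E] [NormedSpace ℝ E]
    [FiniteDimensional ℝ E] {v : E → E}, ContDiff ℝ ∞ v → HasCompactSupport v →
    ∀ {Φ : ℝ → E → E}, IsFlow v Φ → ContDiff ℝ n (Φ 1) := by
  induction n with
  | zero =>
    intro E _ _ _ v hv hc Φ hΦ
    rw [Nat.cast_zero, contDiff_zero, continuous_iff_continuousAt]
    intro x
    obtain ⟨A, -, -, h⟩ := exists_derivative hv hc hΦ x
    exact h.continuousAt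
  | succ n ih =>
    intro E _ _ _ v hv hc Φ hΦ
    rw [Nat.cast_succ, contDiff_succ_iff_fderiv_apply]
    refine ⟨fun x => ?_, fun h => ?_, fun w => ?_⟩
    · obtain ⟨A, -, -, h⟩ := exists_derivative hv hc hΦ x
      exact h.differentiableAt
    · exact absurd h (by simp)
    · obtain ⟨L, hL⟩ := (hv.of_le (by exact_mod_cast le_top : (1 : ℕ∞ω) ≤ ∞)).lipschitzWith_of_hasCompactSupport
        hc (by norm_num)
      have hDv : ∀ z, ‖fderiv ℝ v z‖ ≤ L := fun z => norm_fderiv_le_of_lipschitz ℝ hL
      let φ : ContDiffBump (0 : E) := ⟨‖w‖ * Real.exp L + 1, ‖w‖ * Real.exp L + 2,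
        by positivity, by linarith⟩
      have hφ1 : ∀ z : E, ‖z‖ ≤ ‖w‖ * Real.exp L → φ z = 1 := fun z hz =>
        φ.one_of_mem_closedBall (by
          rw [mem_closedBall, dist_zero_right]
          change ‖z‖ ≤ ‖w‖ * Real.exp L + 1
          linarith)
      set V : E × E → E × E := fun p => φ p.2 • (v p.1, fderiv ℝ v p.1 p.2) with hV
      have hVs : ContDiff ℝ ∞ V := by
        have h1 : ContDiff ℝ ∞ (fderiv ℝ v) := hv.fderiv_right (by simp)
        exact (φ.contDiff.comp contDiff_snd).smul ((hv.comp contDiff_fst).prodMk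
          ((h1.comp contDiff_fst).clm_apply contDiff_snd))
      have hVc : HasCompactSupport V := by
        refine HasCompactSupport.of_support_subset_isCompact
          (hc.isCompact.prod φ.hasCompactSupport.isCompact) fun p hp => ?_
        by_contra hcon
        apply hp
        simp only [hV]
        by_cases h1 : p.1 ∈ tsupport v
        · have h2 : p.2 ∉ tsupport φ := fun h2 => hcon ⟨h1, h2⟩
          rw [image_eq_zero_of_notMem_tsupport h2, zero_smul]
        · rw [image_eq_zero_of_notMem_tsupport h1, fderiv_of_notMem_tsupport (𝕜 := ℝ) h1]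
          simp
      obtain ⟨Ψ, hΨ⟩ := exists_isFlow (hVs.of_le (by exact_mod_cast le_top)) hVc
      have hkey : ∀ x, fderiv ℝ (Φ 1) x w = (Ψ 1 (x, w)).2 := by
        intro x
        obtain ⟨A, hA0, hA, hd⟩ := exists_derivative hv hc hΦ x
        have hder : ∀ t ∈ Icc (0 : ℝ) 1, HasDerivWithinAt (fun t => A t w)
            (fderiv ℝ v (Φ t x) (A t w)) (Icc 0 1) t := by
          intro t ht
          have := (hA t ht).clm_apply (hasDerivWithinAt_const t (Icc (0 : ℝ) 1) w)
          simpa using this
        have hbd : ∀ t ∈ Icc (0 : ℝ) 1, ‖A t w‖ ≤ ‖w‖ * Real.exp L := by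
          intro t ht
          have h1 := norm_le_gronwallBound_of_norm_deriv_right_le
            (f := fun t => A t w) (δ := ‖w‖) (K := L) (ε := 0)
            (fun t ht => (hder t ht).continuousWithinAt)
            (fun t ht => hasDerivWithinAt_Ici_of_Icc ht (hder t (Ico_subset_Icc_self ht)))
            (by simp [hA0]) (fun t _ => by
              rw [add_zero]
              exact ((fderiv ℝ v (Φ t x)).le_opNorm _).trans
                (mul_le_mul_of_nonneg_right (hDv _) (norm_nonneg _))) t ht
          rw [gronwallBound_ε0] at h1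
          refine h1.trans (mul_le_mul_of_nonneg_left (Real.exp_le_exp.2 ?_) (norm_nonneg _))
          nlinarith [ht.1, ht.2, L.2]
        have hY : Solves V univ (Icc 0 1) (fun t => (Φ t x, A t w)) := by
          intro t ht
          refine ⟨mem_univ _, ?_⟩
          have h1 := (hΦ.deriv x t).hasDerivWithinAt.prodMk (hder t ht)
          simp only [hV]
          rw [hφ1 _ (hbd t ht), one_smul]
          exact h1
        have heq := hY.eqOn_of_eq isOpen_univ (hVs.of_le (by exact_mod_cast le_top)).contDiffOn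
          (solves_flow hΨ (x, w) (Icc 0 1)) (by
            simp only [hΦ.zero, hΨ.zero, hA0]
            rfl) (right_mem_Icc.2 zero_le_one)
        simp only at heq
        rw [hd.fderiv, ← heq]
      have h2 : (fun x => fderiv ℝ (Φ 1) x w) = fun x => (Ψ 1 (x, w)).2 := funext hkey
      rw [h2]
      exact contDiff_snd.comp ((ih hVs hVc hΨ).comp (contDiff_id.prodMk contDiff_const))

theorem contDiff_time_one {v : E → E} (hv : ContDiff ℝ ∞ v) (hc : HasCompactSupport v)
    {Φ : ℝ → E → E} (hΦ : IsFlow v Φ) : ContDiff ℝ ∞ (Φ 1) :=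
  contDiff_infty.2 fun n => contDiff_time_one_nat n hv hc hΦ

end

theorem contDiff_flow {E : Type} [NormedAddCommGroup E] [NormedSpace ℝ E] [FiniteDimensional ℝ E]
    {v : E → E} (hv : ContDiff ℝ ∞ v) (hc : HasCompactSupport v) {Φ : ℝ → E → E}
    (hΦ : IsFlow v Φ) : ContDiff ℝ ∞ (fun p : ℝ × E => Φ p.1 p.2) :=
  contDiff_flow_of_one hv hc hΦ fun _ hW hWc _ hΨ => contDiff_time_one hW hWc hΨ

end Pool.Agent.Lib_MP_752436_hi
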