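import Pool.Agent.Lib_MP_752436_nb.RibbonIff
import Pool.Agent.Lib_MP_752436_nb.LevelPush
import Pool.Agent.Lib_MP_752436_gt.CurvMain
import Pool.Agent.Lib_MP_752436_gt.Normal
import Pool.Agent.Lib_MP_752436_gt.Meas

/-!
PIECE NORM: a smooth normal field along a disc which is never a negative multiple of e_3.

(1) `nq F y w` is `det g` times the projection of `w` to the normal plane at `y`: smooth in `(y, w)` on the
whole plane (no cut off needed), normal at `y`, and zero only if `w` is tangent at `y`.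
(2) There is `δ > 0` such that for `|y - z| < δ` a vector normal at `z` and tangent at `y` is zero.
`nuk F N b (k+1) x = nq F ((k+1) x / N) (nuk F N b k x)`, `1 / N < δ`: linear in `b`, injective on the normal
plane at `0`, with values normal at `x`, and smooth in `x`.
(3) Let b, c be linearly independent and normal at 0. If fderiv (F 3) x is not 0, a
multiple of e_3 is normal at x only if it is 0. For each of the finitely many critical points x of the
height at most one s gives a negative multiple of e_3 at x for b + s c. Choose s outside this finite set.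
-/

open Metric Set Filter
open scoped ContDiff Topology

namespace Pool.Agent.Lib_MP_752436_hi

open Pool.Agent.Lib_MP_752436_gt Pool.Agent.Lib_MP_752436_tp Pool.Agent.Lib_MP_752436_rb
  Pool.Agent.Lib_MP_752436_nb

/-- `det g` times the projection of `w` to the normal plane of `F` at `y` -/
noncomputable def nq (F : EuclideanSpace ℝ (Fin 2) → EuclideanSpace ℝ (Fin 4))
    (y : EuclideanSpace ℝ (Fin 2)) (w : EuclideanSpace ℝ (Fin 4)) : EuclideanSpace ℝ (Fin 4) :=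
  gdet F y • w
    - (gm F 1 1 y * inner ℝ w (d1 F 0 y) - gm F 0 1 y * inner ℝ w (d1 F 1 y)) • d1 F 0 y
    - (gm F 0 0 y * inner ℝ w (d1 F 1 y) - gm F 0 1 y * inner ℝ w (d1 F 0 y)) • d1 F 1 y

variable {F : EuclideanSpace ℝ (Fin 2) → EuclideanSpace ℝ (Fin 4)}

theorem nq_inner0 (y : EuclideanSpace ℝ (Fin 2)) (w : EuclideanSpace ℝ (Fin 4)) :
    inner ℝ (nq F y w) (d1 F 0 y) = 0 := by
  unfold nq
  rw [inner_sub_left, inner_sub_left, inner_smul_left, inner_smul_left, inner_smul_left]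
  simp only [conj_trivial]
  have h1 : inner ℝ (d1 F 0 y) (d1 F 0 y) = gm F 0 0 y := rfl
  have h2 : inner ℝ (d1 F 1 y) (d1 F 0 y) = gm F 0 1 y := by
    rw [real_inner_comm]
    rfl
  rw [h1, h2]
  unfold gdet
  ring

theorem nq_inner1 (y : EuclideanSpace ℝ (Fin 2)) (w : EuclideanSpace ℝ (Fin 4)) :
    inner ℝ (nq F y w) (d1 F 1 y) = 0 := by
  unfold nq
  rw [inner_sub_left, inner_sub_left, inner_smul_left, inner_smul_left, inner_smul_left]
  simp only [conj_trivial]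
  have h1 : inner ℝ (d1 F 0 y) (d1 F 1 y) = gm F 0 1 y := rfl
  have h2 : inner ℝ (d1 F 1 y) (d1 F 1 y) = gm F 1 1 y := rfl
  rw [h1, h2]
  unfold gdet
  ring

/-- normal to the surface at `x` -/
def Nrml (F : EuclideanSpace ℝ (Fin 2) → EuclideanSpace ℝ (Fin 4)) (x : EuclideanSpace ℝ (Fin 2))
    (w : EuclideanSpace ℝ (Fin 4)) : Prop :=
  ∀ u, inner ℝ w (fderiv ℝ F x u) = 0

theorem nrml_nq (y : EuclideanSpace ℝ (Fin 2)) (w : EuclideanSpace ℝ (Fin 4)) :
    Nrml F y (nq F y w) := by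
  intro u
  rw [normal_expand, inner_add_right, inner_smul_right, inner_smul_right, nq_inner0, nq_inner1]
  simp

theorem nq_of_nrml {y : EuclideanSpace ℝ (Fin 2)} {w : EuclideanSpace ℝ (Fin 4)} (h : Nrml F y w) :
    nq F y w = gdet F y • w := by
  have h0 : inner ℝ w (d1 F 0 y) = 0 := h _
  have h1 : inner ℝ w (d1 F 1 y) = 0 := h _
  unfold nq
  rw [h0, h1]
  simp

theorem nq_comb (y : EuclideanSpace ℝ (Fin 2)) (a b : ℝ) (v w : EuclideanSpace ℝ (Fin 4)) :
    nq F y (a • v + b • w) = a • nq F y v + b • nq F y w := by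
  unfold nq
  simp only [inner_add_left, inner_smul_left, conj_trivial, smul_sub, smul_add, smul_smul]
  module

/-- a vector killed by the projection is tangent -/
theorem tangent_of_nq {y : EuclideanSpace ℝ (Fin 2)} {w : EuclideanSpace ℝ (Fin 4)}
    (hg : gdet F y ≠ 0) (h : nq F y w = 0) : ∃ u, fderiv ℝ F y u = w := by
  unfold nq at h
  refine ⟨(gdet F y)⁻¹ • !₂[gm F 1 1 y * inner ℝ w (d1 F 0 y) - gm F 0 1 y * inner ℝ w (d1 F 1 y),
    gm F 0 0 y * inner ℝ w (d1 F 1 y) - gm F 0 1 y * inner ℝ w (d1 F 0 y)], ?_⟩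
  rw [map_smul, normal_expand]
  rw [inv_smul_eq_iff₀ hg]
  simp only [Matrix.cons_val_zero, Matrix.cons_val_one]
  rw [sub_sub, sub_eq_zero] at h
  exact h.symm

/-- nearby normal planes are transverse to the tangent planes -/
theorem exists_delta (hF : IsSliceDisc F) : ∃ δ > 0, ∀ y ∈ closedBall (0 : EuclideanSpace ℝ (Fin 2)) 1,
    ∀ z ∈ closedBall (0 : EuclideanSpace ℝ (Fin 2)) 1, dist y z < δ →
    ∀ w, Nrml F z w → nq F y w = 0 → w = 0 := by
  have hcont : Continuous (fderiv ℝ F) := hF.smooth.continuous_fderiv (by simp)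
  have hD : IsCompact (closedBall (0 : EuclideanSpace ℝ (Fin 2)) 1) := isCompact_closedBall _ _
  -- lower bound
  obtain ⟨m, hm, hlow⟩ : ∃ m > 0, ∀ y ∈ closedBall (0 : EuclideanSpace ℝ (Fin 2)) 1, ∀ u,
      m * ‖u‖ ≤ ‖fderiv ℝ F y u‖ := by
    have hS : IsCompact (closedBall (0 : EuclideanSpace ℝ (Fin 2)) 1 ×ˢ
        sphere (0 : EuclideanSpace ℝ (Fin 2)) 1) := hD.prod (isCompact_sphere _ _)
    have hc : Continuous (fun p : EuclideanSpace ℝ (Fin 2) × EuclideanSpace ℝ (Fin 2) =>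
        ‖fderiv ℝ F p.1 p.2‖) :=
      ((hcont.comp continuous_fst).clm_apply continuous_snd).norm
    have hne : (closedBall (0 : EuclideanSpace ℝ (Fin 2)) 1 ×ˢ
        sphere (0 : EuclideanSpace ℝ (Fin 2)) 1).Nonempty := by
      refine ⟨(0, EuclideanSpace.single 0 1), ?_, ?_⟩
      · simp
      · simp
    obtain ⟨p, hp, hmin⟩ := hS.exists_isMinOn hne hc.continuousOn
    refine ⟨‖fderiv ℝ F p.1 p.2‖, ?_, fun y hy u => ?_⟩
    · refine norm_pos_iff.2 fun h0 => ?_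
      have h1 := hF.immersion p.1 hp.1 (by rw [h0, map_zero] : fderiv ℝ F p.1 p.2 = fderiv ℝ F p.1 0)
      have h2 := mem_sphere_zero_iff_norm.1 hp.2
      rw [h1, norm_zero] at h2
      norm_num at h2
    · rcases eq_or_ne u 0 with rfl | hu
      · simp
      have hn : 0 < ‖u‖ := norm_pos_iff.2 hu
      have h1 := isMinOn_iff.1 hmin (y, ‖u‖⁻¹ • u) ⟨hy, by
        rw [mem_sphere_zero_iff_norm, norm_smul, norm_inv, norm_norm, inv_mul_cancel₀ hn.ne']⟩
      simp only [map_smul, norm_smul, norm_inv, norm_norm] at h1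
      rw [inv_mul_eq_div, le_div_iff₀ hn] at h1
      exact h1
  have huc := hD.uniformContinuousOn_of_continuous hcont.continuousOn
  rw [Metric.uniformContinuousOn_iff] at huc
  obtain ⟨δ, hδ, hδ'⟩ := huc (m / 2) (by linarith)
  refine ⟨δ, hδ, fun y hy z hz hyz w hw hq => ?_⟩
  have hg : gdet F y ≠ 0 := (gdet_pos (hF.immersion y hy)).ne'
  obtain ⟨u, hu⟩ := tangent_of_nq hg hq
  have h1 : dist (fderiv ℝ F y) (fderiv ℝ F z) < m / 2 := hδ' y hy z hz hyz
  have h2 : ‖fderiv ℝ F y u - fderiv ℝ F z u‖ ≤ m / 2 * ‖u‖ := by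
    have e : fderiv ℝ F y u - fderiv ℝ F z u = (fderiv ℝ F y - fderiv ℝ F z) u := rfl
    rw [e]
    refine (ContinuousLinearMap.le_opNorm _ _).trans ?_
    rw [dist_eq_norm] at h1
    exact mul_le_mul_of_nonneg_right h1.le (norm_nonneg _)
  have h3 := hlow y hy u
  rw [hu] at h2 h3
  have h4 : ‖w‖ ^ 2 ≤ ‖w‖ * (m / 2 * ‖u‖) := by
    have e : inner ℝ w (w - fderiv ℝ F z u) = ‖w‖ ^ 2 := by
      rw [inner_sub_right, hw u, real_inner_self_eq_norm_sq, sub_zero]
    rw [← e]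
    refine (real_inner_le_norm _ _).trans ?_
    exact mul_le_mul_of_nonneg_left h2 (norm_nonneg _)
  by_contra hne
  have hpos : 0 < ‖w‖ := norm_pos_iff.2 hne
  have h5 : ‖w‖ ≤ m / 2 * ‖u‖ := by
    rw [pow_two] at h4
    exact le_of_mul_le_mul_left h4 hpos
  nlinarith

/-- iterated projections along the ray from `0` to `x` -/
noncomputable def nuk (F : EuclideanSpace ℝ (Fin 2) → EuclideanSpace ℝ (Fin 4)) (N : ℕ)
    (b : EuclideanSpace ℝ (Fin 4)) : ℕ → EuclideanSpace ℝ (Fin 2) → EuclideanSpace ℝ (Fin 4)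
  | 0, _ => nq F 0 b
  | k + 1, x => nq F (((k + 1 : ℕ) / N : ℝ) • x) (nuk F N b k x)

theorem nuk_comb (N : ℕ) (α β : ℝ) (b c : EuclideanSpace ℝ (Fin 4)) (k : ℕ)
    (x : EuclideanSpace ℝ (Fin 2)) :
    nuk F N (α • b + β • c) k x = α • nuk F N b k x + β • nuk F N c k x := by
  induction k with
  | zero => exact nq_comb _ _ _ _ _
  | succ k ih =>
    simp only [nuk]
    rw [ih, nq_comb]

theorem nuk_nrml (N : ℕ) (b : EuclideanSpace ℝ (Fin 4)) (k : ℕ) (x : EuclideanSpace ℝ (Fin 2)) :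
    Nrml F ((k / N : ℝ) • x) (nuk F N b k x) := by
  cases k with
  | zero =>
    simp only [Nat.cast_zero, zero_div, zero_smul]
    exact nrml_nq _ _
  | succ k => exact nrml_nq _ _

theorem contDiff_nq_comp (hF : ContDiff ℝ ∞ F) {g : EuclideanSpace ℝ (Fin 2) → EuclideanSpace ℝ (Fin 2)}
    (hg : ContDiff ℝ ∞ g) {w : EuclideanSpace ℝ (Fin 2) → EuclideanSpace ℝ (Fin 4)}
    (hw : ContDiff ℝ ∞ w) : ContDiff ℝ ∞ (fun x => nq F (g x) (w x)) := by
  have h0 : ContDiff ℝ ∞ (fun x => d1 F 0 (g x)) := (contDiff_d1 hF 0).comp hg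
  have h1 : ContDiff ℝ ∞ (fun x => d1 F 1 (g x)) := (contDiff_d1 hF 1).comp hg
  have g00 : ContDiff ℝ ∞ (fun x => gm F 0 0 (g x)) := h0.inner ℝ h0
  have g01 : ContDiff ℝ ∞ (fun x => gm F 0 1 (g x)) := h0.inner ℝ h1
  have g11 : ContDiff ℝ ∞ (fun x => gm F 1 1 (g x)) := h1.inner ℝ h1
  have w0 : ContDiff ℝ ∞ (fun x => (inner ℝ (w x) (d1 F 0 (g x)) : ℝ)) := hw.inner ℝ h0
  have w1 : ContDiff ℝ ∞ (fun x => (inner ℝ (w x) (d1 F 1 (g x)) : ℝ)) := hw.inner ℝ h1
  have gd : ContDiff ℝ ∞ (fun x => gdet F (g x)) := (g00.mul g11).sub (g01.pow 2)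
  have a0 : ContDiff ℝ ∞ (fun x => gm F 1 1 (g x) * (inner ℝ (w x) (d1 F 0 (g x)) : ℝ)
      - gm F 0 1 (g x) * (inner ℝ (w x) (d1 F 1 (g x)) : ℝ)) := (g11.mul w0).sub (g01.mul w1)
  have a1 : ContDiff ℝ ∞ (fun x => gm F 0 0 (g x) * (inner ℝ (w x) (d1 F 1 (g x)) : ℝ)
      - gm F 0 1 (g x) * (inner ℝ (w x) (d1 F 0 (g x)) : ℝ)) := (g00.mul w1).sub (g01.mul w0)
  exact ((gd.smul hw).sub (a0.smul h0)).sub (a1.smul h1)

theorem contDiff_nuk (hF : ContDiff ℝ ∞ F) (N : ℕ) (b : EuclideanSpace ℝ (Fin 4)) (k : ℕ) :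
    ContDiff ℝ ∞ (nuk F N b k) := by
  induction k with
  | zero =>
    show ContDiff ℝ ∞ (fun _ : EuclideanSpace ℝ (Fin 2) => nq F 0 b)
    exact contDiff_const
  | succ k ih =>
    show ContDiff ℝ ∞ (fun x : EuclideanSpace ℝ (Fin 2) =>
      nq F (((k + 1 : ℕ) / N : ℝ) • x) (nuk F N b k x))
    exact contDiff_nq_comp hF (contDiff_id.const_smul ((k + 1 : ℕ) / N : ℝ)) ih

theorem nuk_ne_zero {δ : ℝ}
    (hδ : ∀ y ∈ closedBall (0 : EuclideanSpace ℝ (Fin 2)) 1,
      ∀ z ∈ closedBall (0 : EuclideanSpace ℝ (Fin 2)) 1, dist y z < δ →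
      ∀ w, Nrml F z w → nq F y w = 0 → w = 0)
    {N : ℕ} (hN : 0 < N) (hNδ : (1 / N : ℝ) < δ) {b : EuclideanSpace ℝ (Fin 4)} (hb : nq F 0 b ≠ 0)
    {x : EuclideanSpace ℝ (Fin 2)} (hx : x ∈ closedBall (0 : EuclideanSpace ℝ (Fin 2)) 1) :
    ∀ k ≤ N, nuk F N b k x ≠ 0 := by
  have hN' : (0 : ℝ) < N := by exact_mod_cast hN
  have hxn : ‖x‖ ≤ 1 := mem_closedBall_zero_iff.1 hx
  have hmem : ∀ k ≤ N, ((k / N : ℝ) • x) ∈ closedBall (0 : EuclideanSpace ℝ (Fin 2)) 1 := by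
    intro k hk
    rw [mem_closedBall_zero_iff, norm_smul, Real.norm_of_nonneg (by positivity)]
    have h1 : (k / N : ℝ) ≤ 1 := by
      rw [div_le_one hN']
      exact_mod_cast hk
    calc (k / N : ℝ) * ‖x‖ ≤ 1 * 1 := mul_le_mul h1 hxn (norm_nonneg _) zero_le_one
      _ = 1 := one_mul 1
  intro k
  induction k with
  | zero =>
    intro _
    exact hb
  | succ k ih =>
    intro hk h0
    refine ih (by omega) (hδ _ (hmem (k + 1) hk) _ (hmem k (by omega)) ?_ _ (nuk_nrml N b k x) h0)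
    rw [dist_eq_norm, ← sub_smul, norm_smul]
    have e : ((k + 1 : ℕ) / N : ℝ) - (k / N : ℝ) = 1 / N := by
      push_cast
      ring
    rw [e, Real.norm_of_nonneg (by positivity)]
    calc (1 / N : ℝ) * ‖x‖ ≤ (1 / N : ℝ) * 1 := mul_le_mul_of_nonneg_left hxn (by positivity)
      _ = 1 / N := mul_one _
      _ < δ := hNδ

/-- two independent normal vectors at a point -/
theorem exists_two_normals (hF : IsSliceDisc F) :
    ∃ b c : EuclideanSpace ℝ (Fin 4), Nrml F 0 b ∧ Nrml F 0 c ∧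
      ∀ α β : ℝ, α • b + β • c = 0 → α = 0 ∧ β = 0 := by
  set T : Submodule ℝ (EuclideanSpace ℝ (Fin 4)) := LinearMap.range (fderiv ℝ F 0 : EuclideanSpace ℝ (Fin 2) →ₗ[ℝ] EuclideanSpace ℝ (Fin 4)) with hT
  have hr : Module.finrank ℝ T ≤ 2 := by
    have h1 := LinearMap.finrank_range_le (fderiv ℝ F 0 : EuclideanSpace ℝ (Fin 2) →ₗ[ℝ] EuclideanSpace ℝ (Fin 4))
    simpa using h1
  have hsum : Module.finrank ℝ T + Module.finrank ℝ Tᗮ = 4 := by
    have := T.finrank_add_finrank_orthogonal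
    simpa using this
  have h2 : 2 ≤ Module.finrank ℝ Tᗮ := by omega
  obtain ⟨v, hv⟩ : ∃ v : Fin 2 → Tᗮ, LinearIndependent ℝ v := by
    have hb := (Module.finBasis ℝ Tᗮ).linearIndependent
    refine ⟨fun i => Module.finBasis ℝ Tᗮ (Fin.castLE h2 i), ?_⟩
    exact hb.comp _ (Fin.castLE_injective h2)
  refine ⟨v 0, v 1, ?_, ?_, ?_⟩
  · intro u
    rw [real_inner_comm]
    exact (Submodule.mem_orthogonal _ _).1 (v 0).2 _ ⟨u, rfl⟩
  · intro u
    rw [real_inner_comm]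
    exact (Submodule.mem_orthogonal _ _).1 (v 1).2 _ ⟨u, rfl⟩
  · intro α β h
    have h3 : α • v 0 + β • v 1 = 0 := by
      apply Subtype.ext
      simpa using h
    have h4 := Fintype.linearIndependent_iff.1 hv ![α, β] (by
      rw [Fin.sum_univ_two]
      exact h3)
    exact ⟨h4 0, h4 1⟩

theorem exists_normal {F : Plane → EuclideanSpace ℝ (Fin 4)} (hF : IsSliceDisc F)
    (hfin : {x | x ∈ closedBall (0 : Plane) 1 ∧ fderiv ℝ (height F) x = 0}.Finite) :
    ∃ ν : Plane → EuclideanSpace ℝ (Fin 4), ContDiff ℝ ∞ ν ∧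
      ∀ x ∈ closedBall (0 : Plane) 1, (∀ u, (inner ℝ (ν x) (fderiv ℝ F x u) : ℝ) = 0) ∧
        0 < ‖ν x‖ + ν x 3 := by
  obtain ⟨δ, hδ0, hδ⟩ := exists_delta hF
  obtain ⟨n, hn⟩ := exists_nat_one_div_lt hδ0
  obtain ⟨b, c, hb, hc, hind⟩ := exists_two_normals hF
  set N : ℕ := n + 1 with hN
  have hN0 : 0 < N := Nat.succ_pos n
  have hNδ : (1 / N : ℝ) < δ := by
    rw [hN]
    push_cast
    exact hn
  have h00 : (0 : EuclideanSpace ℝ (Fin 2)) ∈ closedBall (0 : EuclideanSpace ℝ (Fin 2)) 1 := by simp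
  have hg0 : gdet F 0 ≠ 0 := (gdet_pos (hF.immersion 0 h00)).ne'
  have hnr : ∀ α β : ℝ, Nrml F 0 (α • b + β • c) := by
    intro α β u
    rw [inner_add_left, inner_smul_left, inner_smul_left, hb u, hc u]
    simp
  -- the iterated projection is injective on the normal vectors at `0`
  have hinj : ∀ α β : ℝ, ∀ x ∈ closedBall (0 : EuclideanSpace ℝ (Fin 2)) 1,
      nuk F N (α • b + β • c) N x = 0 → α = 0 ∧ β = 0 := by
    intro α β x hx h
    refine hind α β ?_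
    by_contra hne
    refine nuk_ne_zero hδ hN0 hNδ ?_ hx N le_rfl h
    rw [nq_of_nrml (hnr α β)]
    exact smul_ne_zero hg0 hne
  have hne : ∀ s : ℝ, ∀ x ∈ closedBall (0 : EuclideanSpace ℝ (Fin 2)) 1,
      nuk F N ((1 : ℝ) • b + s • c) N x ≠ 0 := by
    intro s x hx h
    exact one_ne_zero (hinj 1 s x hx h).1
  have hnx : ∀ s : ℝ, ∀ x, Nrml F x (nuk F N ((1 : ℝ) • b + s • c) N x) := by
    intro s x
    have h1 := nuk_nrml (F := F) N ((1 : ℝ) • b + s • c) N x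
    have h2 : (N / N : ℝ) = 1 := div_self (by exact_mod_cast hN0.ne')
    rw [h2, one_smul] at h1
    exact h1
  -- bad directions
  have hbad : ∀ s : ℝ, ∀ x ∈ closedBall (0 : EuclideanSpace ℝ (Fin 2)) 1,
      ‖nuk F N ((1 : ℝ) • b + s • c) N x‖ + nuk F N ((1 : ℝ) • b + s • c) N x 3 ≤ 0 →
      nuk F N ((1 : ℝ) • b + s • c) N x =
        (-‖nuk F N ((1 : ℝ) • b + s • c) N x‖) • EuclideanSpace.single 3 1 := by
    intro s x _ h
    set v := nuk F N ((1 : ℝ) • b + s • c) N x with hv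
    have h1 : ‖v‖ ^ 2 = v 0 ^ 2 + v 1 ^ 2 + v 2 ^ 2 + v 3 ^ 2 := by
      rw [EuclideanSpace.norm_sq_eq, Fin.sum_univ_four]
      simp
    have h2 : ‖v‖ ≤ -v 3 := by linarith
    have h3 : v 0 ^ 2 + v 1 ^ 2 + v 2 ^ 2 ≤ 0 := by
      nlinarith [norm_nonneg v]
    have e0 : v 0 = 0 := by nlinarith [sq_nonneg (v 0), sq_nonneg (v 1), sq_nonneg (v 2)]
    have e1 : v 1 = 0 := by nlinarith [sq_nonneg (v 0), sq_nonneg (v 1), sq_nonneg (v 2)]
    have e2 : v 2 = 0 := by nlinarith [sq_nonneg (v 0), sq_nonneg (v 1), sq_nonneg (v 2)]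
    have e3 : v 3 = -‖v‖ := by
      have : ‖v‖ ^ 2 = v 3 ^ 2 := by rw [h1, e0, e1, e2]; ring
      nlinarith [norm_nonneg v]
    ext i
    fin_cases i
    · simpa using e0
    · simpa using e1
    · simpa using e2
    · simpa using e3
  set C : Set (EuclideanSpace ℝ (Fin 2)) := {x | x ∈ closedBall (0 : EuclideanSpace ℝ (Fin 2)) 1 ∧
      fderiv ℝ (height F) x = 0} with hC
  have hB : (⋃ x ∈ C, {s : ℝ | ‖nuk F N ((1 : ℝ) • b + s • c) N x‖ +
      nuk F N ((1 : ℝ) • b + s • c) N x 3 ≤ 0}).Finite := by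
    refine hfin.biUnion fun x hx => ?_
    refine Set.Subsingleton.finite ?_
    intro s hs s' hs'
    have h1 := hbad s x hx.1 hs
    have h2 := hbad s' x hx.1 hs'
    set a := ‖nuk F N ((1 : ℝ) • b + s • c) N x‖ with ha
    set a' := ‖nuk F N ((1 : ℝ) • b + s' • c) N x‖ with ha'
    have hapos : 0 < a := norm_pos_iff.2 (hne s x hx.1)
    have h3 : nuk F N ((a' - a) • b + (a' * s - a * s') • c) N x = 0 := by
      have e : (a' - a) • b + (a' * s - a * s') • c =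
          a' • ((1 : ℝ) • b + s • c) + (-a) • ((1 : ℝ) • b + s' • c) := by module
      rw [e, nuk_comb, h1, h2]
      module
    obtain ⟨h4, h5⟩ := hinj _ _ x hx.1 h3
    have h6 : a' = a := by linarith
    rw [h6, ← mul_sub] at h5
    rcases mul_eq_zero.1 h5 with h | h
    · exact absurd h hapos.ne'
    · linarith
  obtain ⟨s, hs⟩ := hB.infinite_compl.nonempty
  refine ⟨nuk F N ((1 : ℝ) • b + s • c) N, contDiff_nuk hF.smooth _ _ _, fun x hx => ⟨hnx s x, ?_⟩⟩
  by_contra hcon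
  have hcon' := not_lt.1 hcon
  have h1 := hbad s x hx hcon'
  apply hs
  refine mem_biUnion (x := x) ⟨hx, ?_⟩ hcon'
  -- `x` is a critical point of the height
  have h2 : 0 < ‖nuk F N ((1 : ℝ) • b + s • c) N x‖ := norm_pos_iff.2 (hne s x hx)
  have hd : HasFDerivAt F (fderiv ℝ F x) x := (hF.smooth.differentiable (by simp) x).hasFDerivAt
  have h3 : HasFDerivAt (fun y => F y 3) ((EuclideanSpace.proj (3 : Fin 4) : EuclideanSpace ℝ (Fin 4) →L[ℝ] ℝ).comp (fderiv ℝ F x)) x :=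
    (EuclideanSpace.proj (3 : Fin 4) : EuclideanSpace ℝ (Fin 4) →L[ℝ] ℝ).hasFDerivAt.comp x hd
  show fderiv ℝ (fun y => F y 3) x = 0
  rw [h3.fderiv]
  ext u
  have h4 := hnx s x u
  rw [h1, inner_smul_left, EuclideanSpace.inner_single_left] at h4
  simp only [map_neg, conj_trivial, map_one, one_mul, neg_mul, neg_eq_zero, mul_eq_zero] at h4
  rcases h4 with h | h
  · exact absurd h h2.ne'
  · simpa using h

end Pool.Agent.Lib_MP_752436_hi
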